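import Pool.Agent.Helper29.SQ.KW

/-!
Project SQ (MP_bb32d1_al), packet CE (helper29): commutators `[E_i, F_j]` of the coproduct family.
-/

namespace Pool.Agent.Helper29.SQ

open Pool.Agent.Helper19.SQ

section

variable {B : Type} [Ring B] [Algebra ℂ B]

theorem ce_aux (e1 f1 e2 f2 k k' : B) (c : ℂ) (h1 : e1 * k' = k' * e1) (h2 : e1 * f2 = f2 * e1)
    (h3 : k * f1 = c • (f1 * k)) (h4 : k' * e2 = c • (e2 * k')) (h5 : e2 * f1 = f1 * e2)
    (h6 : k * k' = k' * k) (h7 : k * f2 = f2 * k) :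
    (e1 + k * e2) * (f1 * k' + f2) - (f1 * k' + f2) * (e1 + k * e2)
      = (e1 * f1 - f1 * e1) * k' + k * (e2 * f2 - f2 * e2) := by
  have a1 : f1 * k' * e1 = f1 * e1 * k' := by rw [mul_assoc, ← h1, mul_assoc]
  have a2 : k * e2 * (f1 * k') = c • (f1 * k * e2 * k') := by
    calc k * e2 * (f1 * k') = k * (e2 * f1) * k' := by noncomm_ring
      _ = (k * f1) * e2 * k' := by rw [h5]; noncomm_ring
      _ = c • (f1 * k * e2 * k') := by rw [h3, smul_mul_assoc, smul_mul_assoc]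
  have a3 : f1 * k' * (k * e2) = c • (f1 * k * e2 * k') := by
    calc f1 * k' * (k * e2) = f1 * (k' * k) * e2 := by noncomm_ring
      _ = f1 * k * (k' * e2) := by rw [← h6]; noncomm_ring
      _ = c • (f1 * k * e2 * k') := by rw [h4, mul_smul_comm, mul_assoc (f1 * k)]
  have a4 : f2 * (k * e2) = k * f2 * e2 := by rw [← mul_assoc, ← h7]
  rw [mul_add, add_mul, add_mul, add_mul, mul_add, mul_add, a1, a2, a3, a4, h2]
  noncomm_ring

end

theorem sCE : S_CE := by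
  intro B _ _ N l q E1 F1 K1 E2 F2 K2 hl3 hq h1 h2 hC
  have hl : 1 ≤ l := by omega
  obtain ⟨k1, k2, k3, k4, k5, k6⟩ := sKI B l K1 hl h1.K_comm h1.K_pow
  obtain ⟨m1, m2, m3, m4, m5, m6⟩ := sKI B l K2 hl h2.K_comm h2.K_pow
  have key : ∀ i j, cE l E1 K1 E2 i * cF l F1 K2 F2 j - cF l F1 K2 F2 j * cE l E1 K1 E2 i
      = (E1 i * F1 j - F1 j * E1 i) * kk l K2 (j + 1) j
        + kk l K1 i (i + 1) * (E2 i * F2 j - F2 j * E2 i) := by
    intro i j
    have w3 : kk l K1 i (i + 1) * F1 j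
        = q ^ (-ew i j (j + 1) + ew (i + 1) j (j + 1)) • (F1 j * kk l K1 i (i + 1)) := by
      obtain ⟨-, ⟨a1, -⟩, -⟩ := sKG B N l q E1 F1 K1 hl hq h1 i j (j + 1) (by omega)
      obtain ⟨-, ⟨-, a2⟩, -⟩ := sKG B N l q E1 F1 K1 hl hq h1 (i + 1) j (j + 1) (by omega)
      rw [rv_base] at a1 a2
      rw [zpow_add₀ hq]
      unfold kk
      rw [mul_assoc, a2, mul_smul_comm, ← mul_assoc, a1, smul_mul_assoc, smul_smul, mul_comm,
        mul_assoc]
    have w4 : kk l K2 (j + 1) j * E2 i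
        = q ^ (-ew i j (j + 1) + ew (i + 1) j (j + 1)) • (E2 i * kk l K2 (j + 1) j) := by
      obtain ⟨⟨a1, -⟩, -⟩ := sKG B N l q E2 F2 K2 hl hq h2 (j + 1) i (i + 1) (by omega)
      obtain ⟨⟨-, a2⟩, -⟩ := sKG B N l q E2 F2 K2 hl hq h2 j i (i + 1) (by omega)
      rw [rv_base] at a1 a2
      have e : -ew i j (j + 1) + ew (i + 1) j (j + 1) = ew (j + 1) i (i + 1) + -ew j i (i + 1) := by
        unfold ew; split_ifs <;> omega
      rw [e, zpow_add₀ hq]
      unfold kk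
      rw [mul_assoc, a2, mul_smul_comm, ← mul_assoc, a1, smul_mul_assoc, smul_smul, mul_assoc]
      rw [mul_comm]
    refine ce_aux (E1 i) (F1 j) (E2 i) (F2 j) (kk l K1 i (i + 1)) (kk l K2 (j + 1) j) _ ?_
      (hC.EF i j) w3 w4 (hC.FE j i).symm ?_ ?_
    · have ha : Commute (E1 i) (K2 (j + 1)) := hC.EK i (j + 1)
      have hb : Commute (E1 i) (K2 j) := hC.EK i j
      exact ha.mul_right (hb.pow_right _)
    · have hab : ∀ a b, Commute (K1 a) (K2 b) := hC.KK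
      exact ((hab _ _).mul_left ((hab _ _).pow_left _)).mul_right
        (((hab _ _).mul_left ((hab _ _).pow_left _)).pow_right _)
    · have ha : ∀ a, Commute (K1 a) (F2 j) := fun a => hC.KF a j
      exact (ha _).mul_left ((ha _).pow_left _)
  refine ⟨fun i j hij => ?_, fun i hi => ?_⟩
  · rw [← sub_eq_zero, key i j, h1.EF_ne i j hij, h2.EF_ne i j hij, sub_self, sub_self, zero_mul,
      mul_zero, add_zero]
  · rw [key i i, h1.EF i hi, h2.EF i hi]
    have hab : ∀ a b, Commute (K1 a) (K2 b) := hC.KK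
    have ep : ∀ a, cK K1 K2 a ^ (l - 1) = ki l K1 a * ki l K2 a := fun a => (hab a a).mul_pow _
    rw [ep, ep]
    have c1 : ∀ a b, Commute (ki l K1 a) (K2 b) := fun a b => (hab a b).pow_left _
    have c2 : ∀ a b, Commute (K1 a) (ki l K2 b) := fun a b => (hab a b).pow_right _
    have c3 : ∀ a b, Commute (ki l K1 a) (ki l K2 b) := fun a b => ((hab a b).pow_right _).pow_left _
    show ((q - q⁻¹)⁻¹ • (K1 i * ki l K1 (i + 1) - ki l K1 i * K1 (i + 1))) * (K2 (i + 1) * ki l K2 i)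
      + K1 i * ki l K1 (i + 1) * ((q - q⁻¹)⁻¹ • (K2 i * ki l K2 (i + 1) - ki l K2 i * K2 (i + 1)))
      = (q - q⁻¹)⁻¹ • (K1 i * K2 i * (ki l K1 (i + 1) * ki l K2 (i + 1))
        - ki l K1 i * ki l K2 i * (K1 (i + 1) * K2 (i + 1)))
    rw [smul_mul_assoc, mul_smul_comm, ← smul_add]
    congr 1
    have d1 : K1 i * K2 i * (ki l K1 (i + 1) * ki l K2 (i + 1))
        = K1 i * ki l K1 (i + 1) * (K2 i * ki l K2 (i + 1)) := by
      rw [mul_assoc, ← mul_assoc (K2 i), ← (c1 (i + 1) i).eq]; noncomm_ring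
    have d2 : ki l K1 i * ki l K2 i * (K1 (i + 1) * K2 (i + 1))
        = ki l K1 i * K1 (i + 1) * (K2 (i + 1) * ki l K2 i) := by
      rw [mul_assoc, ← mul_assoc (ki l K2 i), ← (c2 (i + 1) i).eq, m3 (i + 1) i]; noncomm_ring
    rw [d1, d2, ← m3 (i + 1) i]
    noncomm_ring

end Pool.Agent.Helper29.SQ
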