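import Pool.Agent.Helper29.SQ.RB

/-!
Project SQ (MP_bb32d1_al), packets RD, RO (helper29): relations of the root vectors.
-/

namespace Pool.Agent.Helper29.SQ

open Pool.Agent.Helper19.SQ

theorem sR8 : S_R8 := by
  intro B _ _ q E hq hq2 h i j k m hik hkm hmj
  refine comm_rv q E _ k m hkm fun p h1 h2 => ?_
  exact (show Commute _ _ from sR6 B q E hq hq2 h i j p (by omega) (by omega)).symm

theorem sR10 : S_R10 := by
  intro B _ _ q E hq hq2 h i j k hij hjk
  have h4 := sR4 B q E hq h i k (by omega)
  rcases Nat.lt_or_ge (i + 1) j with hj | hj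
  · have h8 := sR8 B q E hq hq2 h i k (i + 1) j (by omega) hj hjk
    rw [rv_succ q E i j hj]
    generalize rv q E (i + 1) j = W at *
    generalize rv q E i k = Z at *
    generalize E i = a at *
    linear_combination (norm := skip) -(a * h8) + h4 * W - q⁻¹ • (W * h4) + (h8 * a)
    simp only [mul_sub, sub_mul, mul_smul_comm, smul_mul_assoc, smul_sub, smul_smul, mul_assoc]
    match_scalars <;> field_simp <;> ring
  · have : j = i + 1 := by omega
    subst this
    rw [rv_base]
    exact h4

theorem sR11 : S_R11 := by
  intro B _ _ q E hq hq2 h i j k hij hjk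
  obtain ⟨k, rfl⟩ : ∃ k', k = k' + 1 := ⟨k - 1, by omega⟩
  have h5 := sR5 B q E hq h i k (by omega)
  rcases Nat.lt_or_ge j k with hj | hj
  · have h8 := sR8 B q E hq hq2 h i (k + 1) j k hij hj (by omega)
    rw [sR3 B q E h j k hj]
    generalize rv q E j k = W at *
    generalize rv q E i (k + 1) = Z at *
    generalize E k = c at *
    linear_combination (norm := skip) (h8 * c) + W * h5 - q⁻¹ • (h5 * W) - (c * h8)
    simp only [mul_sub, sub_mul, mul_smul_comm, smul_mul_assoc, smul_sub, smul_smul, mul_assoc]
    match_scalars <;> field_simp <;> ring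
  · have : k = j := by omega
    subst this
    rw [rv_base]
    exact h5

end Pool.Agent.Helper29.SQ
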