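import Pool.Agent.Helper29.SQ.CR
import Pool.Agent.Helper29.SQ.RD

/-!
Project SQ (MP_bb32d1_al), packet CP (helper29): nilpotency of the root vectors of the coproduct.
-/

namespace Pool.Agent.Helper29.SQ

open Pool.Agent.Helper19.SQ

section

variable {B : Type} [Ring B] [Algebra ℂ B]

theorem cp_comm (X1 κ1 Y1 X2 κ2 Y2 : B) (c1 c2 α β γ : ℂ)
    (h1 : κ1 * X2 = α • (X2 * κ1)) (h2 : κ2 * X1 = X1 * κ2) (h3 : X1 * X2 = β • (X2 * X1))
    (h4 : Y1 * Y2 = γ • (Y2 * Y1)) (h5 : κ1 * κ2 = κ2 * κ1) (h6 : Y1 * X2 = X2 * Y1)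
    (h7 : Y1 * κ2 = κ2 * Y1) (h8 : Y2 * X1 = X1 * Y2) (h9 : Y2 * κ1 = κ1 * Y2) :
    (c1 • (X1 * (κ1 * Y1))) * (c2 • (X2 * (κ2 * Y2)))
      = (α * β * γ) • ((c2 • (X2 * (κ2 * Y2))) * (c1 • (X1 * (κ1 * Y1)))) := by
  have e1 : (X1 * (κ1 * Y1)) * (X2 * (κ2 * Y2)) = (α * β * γ) • (X2 * X1 * (κ2 * κ1) * (Y2 * Y1)) := by
    calc (X1 * (κ1 * Y1)) * (X2 * (κ2 * Y2)) = X1 * κ1 * (Y1 * X2) * κ2 * Y2 := by noncomm_ring
      _ = X1 * (κ1 * X2) * (Y1 * κ2) * Y2 := by rw [h6]; noncomm_ring
      _ = X1 * (α • (X2 * κ1)) * (κ2 * Y1) * Y2 := by rw [h1, h7]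
      _ = α • ((X1 * X2) * (κ1 * κ2) * (Y1 * Y2)) := by
        simp only [mul_smul_comm, smul_mul_assoc, mul_assoc]
      _ = α • ((β • (X2 * X1)) * (κ2 * κ1) * (γ • (Y2 * Y1))) := by rw [h3, h4, h5]
      _ = (α * β * γ) • (X2 * X1 * (κ2 * κ1) * (Y2 * Y1)) := by
        simp only [mul_smul_comm, smul_mul_assoc, smul_smul]
        congr 1; ring
  have e2 : (X2 * (κ2 * Y2)) * (X1 * (κ1 * Y1)) = X2 * X1 * (κ2 * κ1) * (Y2 * Y1) := by
    calc (X2 * (κ2 * Y2)) * (X1 * (κ1 * Y1)) = X2 * κ2 * (Y2 * X1) * κ1 * Y1 := by noncomm_ring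
      _ = X2 * (κ2 * X1) * (Y2 * κ1) * Y1 := by rw [h8]; noncomm_ring
      _ = X2 * X1 * (κ2 * κ1) * (Y2 * Y1) := by rw [h2, h9]; noncomm_ring
  rw [smul_mul_smul_comm, smul_mul_smul_comm, e1, e2, smul_smul, smul_smul]
  congr 1; ring

theorem cp_pow (l : ℕ) (c : ℂ) (X κ Y : B) (hX : Y * X = X * Y) (hκ : Y * κ = κ * Y)
    (hY : Y ^ l = 0) : (c • (X * (κ * Y))) ^ l = 0 := by
  have hc : Commute (X * κ) Y := by
    have h1 : Commute X Y := hX.symm
    have h2 : Commute κ Y := hκ.symm
    exact h1.mul_left h2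
  rw [smul_pow, ← mul_assoc, hc.mul_pow, hY, mul_zero, smul_zero]

theorem rv_pow {l : ℕ} {q : ℂ} {E K : ℕ → B} (h : HRel l q E K) (i j : ℕ) :
    rv q E i j ^ l = 0 := h.pE _ _

end

theorem par_ne {l : ℕ} {q : ℂ} (ho : Odd l) (hl : 3 ≤ l) (hq : IsPrimitiveRoot q l) :
    q ≠ 0 ∧ q ^ 2 ≠ -1 := by
  refine ⟨hq.ne_zero (by omega), fun h => ?_⟩
  have h4 : q ^ 4 = 1 := by
    rw [show (4 : ℕ) = 2 * 2 by rfl, pow_mul, h]; norm_num
  have hd := hq.dvd_of_pow_eq_one 4 h4
  have hle : l ≤ 4 := Nat.le_of_dvd (by norm_num) hd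
  obtain ⟨k, hk⟩ := ho
  have : l = 3 := by omega
  subst this
  revert hd; decide

theorem sCP (hQ : S_QBINS) : S_CP := by
  intro B _ _ l q E1 K1 E2 K2 ho hl3 hprim h1 h2 hE hK d i
  obtain ⟨hq, hq2⟩ := par_ne ho hl3 hprim
  have hl : 1 ≤ l := by omega
  have cE1 : ∀ p r, p < r → ∀ m, Commute (E1 m) (rv q E2 p r) := fun p r hpr m =>
    comm_rv q E2 _ p r hpr fun s _ _ => hE m s
  have cK : ∀ p r, p < r → ∀ m, Commute (K1 m) (rv q E2 p r) := fun p r hpr m =>
    comm_rv q E2 _ p r hpr fun s _ _ => hK m s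
  have cRR : ∀ p r, p < r → ∀ s t, s < t → Commute (rv q E2 p r) (rv q E1 s t) :=
    fun p r hpr s t hst => comm_rv q E1 _ s t hst fun m _ _ => (cE1 p r hpr m).symm
  have ckR2 : ∀ r s p t, p < t → Commute (rv q E2 p t) (kk l K1 r s) := fun r s p t hpt =>
    (comm_kk r s fun j => cK p t hpt j).symm
  have ckk := fun r s t u => kk_comm (l := l) h1.K_comm r s t u
  obtain ⟨k1, k2, k3, k4, k5, k6⟩ := sKI B l K1 hl h1.K_comm h1.K_pow
  rw [← rv_eq_rvA, sCR B l q E1 K1 E2 hl hq h1 h2.sE hE hK i (i + d + 1) (by omega)]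
  set j := i + d + 1 with hj
  set s : ℂ := 1 - q⁻¹ ^ 2 with hs
  set X : ℕ → B := fun m => if m = 0 then 1 else rv q E1 i (i + m) with hX
  set Y : ℕ → B := fun m => if m = d + 1 then 1 else rv q E2 (i + m) j with hY
  set c : ℕ → ℂ := fun m => if m = 0 ∨ m = d + 1 then 1 else s with hc
  set κ : ℕ → B := fun m => kk l K1 (i + m) j with hκ
  set T : ℕ → B := fun m => c m • (X m * (κ m * Y m)) with hT
  have hkjj : kk l K1 j j = 1 := by unfold kk; exact k1 j
  have hsum : rv q E1 i j + s • ∑ p ∈ Finset.Ioo i j, rv q E1 i p * (kk l K1 p j * rv q E2 p j) +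
      kk l K1 i j * rv q E2 i j = ∑ m ∈ Finset.range (d + 2), T m := by
    rw [Finset.sum_range_succ, Finset.sum_range_succ']
    have e0 : T 0 = kk l K1 i j * rv q E2 i j := by
      simp only [hT, hX, hY, hc, hκ]
      rw [if_pos (Or.inl trivial), if_pos trivial, if_neg (by omega), one_smul, one_mul, add_zero]
    have e1 : T (d + 1) = rv q E1 i j := by
      simp only [hT, hX, hY, hc, hκ]
      rw [if_pos (Or.inr trivial), if_neg (by omega), if_pos trivial, one_smul, mul_one]
      rw [show i + (d + 1) = j by omega, hkjj, mul_one]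
    have e2 : s • ∑ p ∈ Finset.Ioo i j, rv q E1 i p * (kk l K1 p j * rv q E2 p j)
        = ∑ k ∈ Finset.range d, T (k + 1) := by
      have : Finset.Ioo i j = Finset.Ico (i + 1) j := by
        ext p; simp only [Finset.mem_Ioo, Finset.mem_Ico]; omega
      rw [this, Finset.sum_Ico_eq_sum_range, show j - (i + 1) = d by omega, Finset.smul_sum]
      refine Finset.sum_congr rfl fun k hk => ?_
      rw [Finset.mem_range] at hk
      simp only [hT, hX, hY, hc, hκ]
      rw [if_neg (by omega), if_neg (by omega), if_neg (by omega)]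
      rw [show i + 1 + k = i + (k + 1) by ring]
    rw [e0, e1, e2]
    abel
  rw [hsum]
  refine hQ B l q ho hprim (d + 2) T (fun p r hpr hr => ?_) (fun p hp => ?_)
  · -- commutation
    have hYY : ∀ p, p < d + 1 → Y p = rv q E2 (i + p) j := fun p hp => by
      simp only [hY]; rw [if_neg (by omega)]
    have hXX : ∀ p, 0 < p → X p = rv q E1 i (i + p) := fun p hp => by
      simp only [hX]; rw [if_neg (by omega)]
    have hp1 : p < d + 1 := by omega
    have hr0 : 0 < r := by omega
    have w1 : κ p * X r = q ^ (ew (i + p) i (i + r) - ew j i (i + r)) • (X r * κ p) := by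
      rw [hXX r hr0]
      exact wt_kk hl hq h1 (i + p) j i (i + r) (by omega)
    have w2 : κ r * X p = X p * κ r := by
      rcases Nat.eq_zero_or_pos p with h0 | h0
      · subst h0; simp only [hX]; rw [if_pos trivial, one_mul, mul_one]
      · rw [hXX p h0]
        have := wt_kk hl hq h1 (i + r) j i (i + p) (by omega)
        have hz : ew (i + r) i (i + p) - ew j i (i + p) = 0 := by
          unfold ew; split_ifs <;> omega
        rw [hz, zpow_zero] at this
        unfold Wt at this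
        rw [one_smul] at this
        exact this
    have w3 : X p * X r = (if p = 0 then (1 : ℂ) else q) • (X r * X p) := by
      rcases Nat.eq_zero_or_pos p with h0 | h0
      · subst h0; simp only [hX]; rw [if_pos trivial, if_pos trivial, one_mul, mul_one, one_smul]
      · rw [hXX p h0, hXX r hr0, if_neg (by omega)]
        exact sR10 B q E1 hq hq2 h1.sE i (i + p) (i + r) (by omega) (by omega)
    have w4 : Y p * Y r = (if r = d + 1 then (1 : ℂ) else q) • (Y r * Y p) := by
      by_cases h0 : r = d + 1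
      · subst h0; simp only [hY]; rw [if_pos trivial, if_pos trivial, one_mul, mul_one, one_smul]
      · rw [hYY p hp1, hYY r (by omega), if_neg h0]
        exact sR11 B q E2 hq hq2 h2.sE (i + p) (i + r) j (by omega) (by omega)
    have w5 : κ p * κ r = κ r * κ p := ckk _ _ _ _
    have w6 : Y p * X r = X r * Y p := by
      rw [hYY p hp1, hXX r hr0]
      exact cRR _ _ (by omega) _ _ (by omega)
    have w7 : Y p * κ r = κ r * Y p := by
      rw [hYY p hp1]
      exact ckR2 _ _ _ _ (by omega)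
    have w8 : Y r * X p = X p * Y r := by
      simp only [hX, hY]
      split_ifs with ha hb hb
      · rfl
      · rw [one_mul, mul_one]
      · rw [one_mul, mul_one]
      · exact cRR _ _ (by omega) _ _ (by omega)
    have w9 : Y r * κ p = κ p * Y r := by
      simp only [hY]
      split_ifs with ha
      · rw [one_mul, mul_one]
      · exact ckR2 _ _ _ _ (by omega)
    have key := cp_comm (X p) (κ p) (Y p) (X r) (κ r) (Y r) (c p) (c r) _ _ _
      w1 w2 w3 w4 w5 w6 w7 w8 w9
    have hfac : q ^ (ew (i + p) i (i + r) - ew j i (i + r)) * (if p = 0 then (1 : ℂ) else q)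
        * (if r = d + 1 then (1 : ℂ) else q) = q ^ 2 := by
      by_cases ha : p = 0 <;> by_cases hb : r = d + 1
      · have : ew (i + p) i (i + r) - ew j i (i + r) = 2 := by
          unfold ew; split_ifs <;> omega
        rw [this, if_pos ha, if_pos hb, mul_one, mul_one]; norm_cast
      · have : ew (i + p) i (i + r) - ew j i (i + r) = 1 := by
          unfold ew; split_ifs <;> omega
        rw [this, if_pos ha, if_neg hb, mul_one, zpow_one, pow_two]
      · have : ew (i + p) i (i + r) - ew j i (i + r) = 1 := by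
          unfold ew; split_ifs <;> omega
        rw [this, if_neg ha, if_pos hb, mul_one, zpow_one, pow_two]
      · have : ew (i + p) i (i + r) - ew j i (i + r) = 0 := by
          unfold ew; split_ifs <;> omega
        rw [this, if_neg ha, if_neg hb, zpow_zero, one_mul, pow_two]
    rw [hfac] at key
    exact key
  · -- nilpotency
    by_cases h0 : p = d + 1
    · have e1 : T p = rv q E1 i j := by
        subst h0
        simp only [hT, hX, hY, hc, hκ]
        rw [if_pos (Or.inr trivial), if_neg (by omega), if_pos trivial, one_smul, mul_one]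
        rw [show i + (d + 1) = j by omega, hkjj, mul_one]
      rw [e1, rv_pow h1]
    · have hYp : Y p = rv q E2 (i + p) j := by simp only [hY]; rw [if_neg h0]
      refine cp_pow l (c p) (X p) (κ p) (Y p) ?_ ?_ ?_
      · rw [hYp]
        simp only [hX]
        split_ifs with ha
        · rw [one_mul, mul_one]
        · exact cRR _ _ (by omega) _ _ (by omega)
      · rw [hYp]
        exact ckR2 _ _ _ _ (by omega)
      · rw [hYp, rv_pow h2]

end Pool.Agent.Helper29.SQ
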