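import Pool.Agent.Helper29.SQ.KW
import Pool.Agent.Helper29.SQ.RD

/-!
Project SQ (MP_bb32d1_al), packet CR (helper29): root vectors of `E'_i + k'_i E''_i`.
-/

namespace Pool.Agent.Helper29.SQ

open Pool.Agent.Helper19.SQ

section

variable {B : Type} [Ring B] [Algebra ℂ B]

theorem Wt.mul_left {P Q R : B} {c d : ℂ} (h1 : Wt P R c) (h2 : Wt Q R d) :
    Wt (P * Q) R (c * d) := by
  unfold Wt at *
  rw [mul_assoc, h2, mul_smul_comm, ← mul_assoc, h1, smul_mul_assoc, smul_smul, mul_assoc,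
    mul_comm d]

theorem Wt.of_eq {P R : B} {c d : ℂ} (h1 : Wt P R c) (h : c = d) : Wt P R d := h ▸ h1

/-- weight of `K_p K_r⁻¹` on a root vector. -/
theorem wt_kk {l : ℕ} {q : ℂ} {E K : ℕ → B} (hl : 1 ≤ l) (hq : q ≠ 0) (h : HRel l q E K)
    (p r i j : ℕ) (hij : i < j) : Wt (kk l K p r) (rv q E i j) (q ^ (ew p i j - ew r i j)) := by
  obtain ⟨a1, -, -, -⟩ := sKW B l q E K hl hq h p i j hij
  obtain ⟨-, a2, -, -⟩ := sKW B l q E K hl hq h r i j hij
  refine (Wt.mul_left (show Wt _ _ _ from a1) (show Wt _ _ _ from a2)).of_eq ?_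
  rw [← zpow_add₀ hq, sub_eq_add_neg]

theorem comm_ki {l : ℕ} {K : ℕ → B} {x : B} (j : ℕ) (h : Commute (K j) x) :
    Commute (ki l K j) x := h.pow_left _

theorem comm_kk {l : ℕ} {K : ℕ → B} {x : B} (i j : ℕ) (h : ∀ j, Commute (K j) x) :
    Commute (kk l K i j) x := (h i).mul_left (comm_ki j (h j))

theorem kk_comm {l : ℕ} {K : ℕ → B} (h : ∀ i j, K i * K j = K j * K i) (i j r s : ℕ) :
    Commute (kk l K i j) (kk l K r s) := by
  refine comm_kk i j fun j => ?_
  refine (comm_kk r s fun i => ?_).symm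
  exact h i j

theorem kk_mul {l : ℕ} {K : ℕ → B} (hl : 1 ≤ l) (h : ∀ i j, K i * K j = K j * K i)
    (hp : ∀ j, K j ^ l = 1) (i j r : ℕ) :
    kk l K i j * kk l K j r = kk l K i r := by
  obtain ⟨k1, k2, k3, k4, k5, k6⟩ := sKI B l K hl h hp
  unfold kk
  rw [mul_assoc, ← mul_assoc (ki l K j), k2, one_mul]

variable {q : ℂ}

theorem g2 (a X κ Y : B) (h1 : a * κ = κ * a) (h2 : a * Y = Y * a) :
    a * (X * (κ * Y)) - q⁻¹ • ((X * (κ * Y)) * a) = (a * X - q⁻¹ • (X * a)) * (κ * Y) := by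
  have e : X * (κ * Y) * a = X * a * (κ * Y) := by
    rw [mul_assoc, mul_assoc κ, ← h2, ← mul_assoc κ, ← h1]; noncomm_ring
  rw [e, sub_mul, smul_mul_assoc, mul_assoc a]

theorem g3 (a κ Y : B) (h1 : κ * a = q⁻¹ • (a * κ)) (h2 : a * Y = Y * a) :
    a * (κ * Y) - q⁻¹ • ((κ * Y) * a) = (1 - q⁻¹ ^ 2) • (a * (κ * Y)) := by
  have e : κ * Y * a = q⁻¹ • (a * (κ * Y)) := by
    rw [mul_assoc, ← h2, ← mul_assoc, h1, smul_mul_assoc, mul_assoc]
  rw [e, smul_smul, sub_smul, one_smul, pow_two]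

theorem g4 (k b A : B) (h1 : k * A = q⁻¹ • (A * k)) (h2 : b * A = A * b) :
    (k * b) * A - q⁻¹ • (A * (k * b)) = 0 := by
  rw [mul_assoc, h2, ← mul_assoc, h1, smul_mul_assoc, mul_assoc, sub_self]

theorem g5 (k b X κ Y : B) (h1 : k * X = q⁻¹ • (X * k)) (h2 : b * X = X * b)
    (h3 : b * Y = Y * b) (h4 : b * κ = κ * b) (h5 : k * κ = κ * k) (h6 : k * Y = Y * k) :
    (k * b) * (X * (κ * Y)) - q⁻¹ • ((X * (κ * Y)) * (k * b)) = 0 := by
  have e1 : (k * b) * (X * (κ * Y)) = q⁻¹ • (X * (k * (κ * (b * Y)))) := by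
    calc (k * b) * (X * (κ * Y)) = k * (b * X) * (κ * Y) := by noncomm_ring
      _ = (k * X) * (b * κ) * Y := by rw [h2]; noncomm_ring
      _ = q⁻¹ • (X * (k * (κ * (b * Y)))) := by
        rw [h1, h4, smul_mul_assoc, smul_mul_assoc]; congr 1; noncomm_ring
  have e2 : (X * (κ * Y)) * (k * b) = X * (k * (κ * (b * Y))) := by
    calc (X * (κ * Y)) * (k * b) = X * κ * (Y * k) * b := by noncomm_ring
      _ = X * (κ * k) * (Y * b) := by rw [← h6]; noncomm_ring
      _ = X * (k * (κ * (b * Y))) := by rw [← h5, ← h3]; noncomm_ring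
  rw [e1, e2, sub_self]

theorem g6 (k b κ Y : B) (h4 : b * κ = κ * b) (h5 : k * κ = κ * k) (h6 : k * Y = Y * k) :
    (k * b) * (κ * Y) - q⁻¹ • ((κ * Y) * (k * b)) = (k * κ) * (b * Y - q⁻¹ • (Y * b)) := by
  have e1 : (k * b) * (κ * Y) = (k * κ) * (b * Y) := by
    calc (k * b) * (κ * Y) = k * (b * κ) * Y := by noncomm_ring
      _ = (k * κ) * (b * Y) := by rw [h4]; noncomm_ring
  have e2 : (κ * Y) * (k * b) = (k * κ) * (Y * b) := by
    calc (κ * Y) * (k * b) = κ * (Y * k) * b := by noncomm_ring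
      _ = (κ * k) * (Y * b) := by rw [← h6]; noncomm_ring
      _ = (k * κ) * (Y * b) := by rw [← h5]
  rw [e1, e2, mul_sub, mul_smul_comm]

theorem Ioo_succ_sum {M : Type*} [AddCommMonoid M] (f : ℕ → M) (i j : ℕ) (h : i + 1 < j) :
    ∑ p ∈ Finset.Ioo i j, f p = f (i + 1) + ∑ p ∈ Finset.Ioo (i + 1) j, f p := by
  have : Finset.Ioo i j = insert (i + 1) (Finset.Ioo (i + 1) j) := by
    ext p; simp only [Finset.mem_Ioo, Finset.mem_insert]; omega
  rw [this, Finset.sum_insert (by simp)]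

theorem cr_aux (l : ℕ) (E1 K1 E2 : ℕ → B) (hl : 1 ≤ l) (hq : q ≠ 0) (h : HRel l q E1 K1)
    (h2 : SerreRel q E2) (hE : Cm E1 E2) (hK : Cm K1 E2) : ∀ d i,
    rv q (cE l E1 K1 E2) i (i + d + 1) = rv q E1 i (i + d + 1) +
      (1 - q⁻¹ ^ 2) • ∑ p ∈ Finset.Ioo i (i + d + 1),
        rv q E1 i p * (kk l K1 p (i + d + 1) * rv q E2 p (i + d + 1)) +
      kk l K1 i (i + d + 1) * rv q E2 i (i + d + 1)
  | 0, i => by
    have : Finset.Ioo i (i + 0 + 1) = ∅ := by
      ext p; simp only [Finset.mem_Ioo, Finset.notMem_empty, iff_false]; omega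
    rw [this, Finset.sum_empty, smul_zero]
    simp only [add_zero, rv_base]
    rfl
  | d + 1, i => by
    have ih := cr_aux l E1 K1 E2 hl hq h h2 hE hK d (i + 1)
    have ej : i + (d + 1) + 1 = i + 1 + d + 1 := by ring
    rw [ej]
    set j := i + 1 + d + 1 with hj
    have hij : i + 1 < j := by omega
    -- commutation facts
    have cE1 : ∀ p r, p < r → ∀ m, Commute (E1 m) (rv q E2 p r) := fun p r hpr m =>
      comm_rv q E2 _ p r hpr fun s _ _ => hE m s
    have cK : ∀ p r, p < r → ∀ m, Commute (K1 m) (rv q E2 p r) := fun p r hpr m =>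
      comm_rv q E2 _ p r hpr fun s _ _ => hK m s
    have cRv : ∀ p r, p < r → ∀ m, Commute (E2 m) (rv q E1 p r) := fun p r hpr m =>
      comm_rv q E1 _ p r hpr fun s _ _ => (hE s m).symm
    have ckE2 : ∀ r s m, Commute (E2 m) (kk l K1 r s) := fun r s m =>
      (comm_kk r s fun j => hK j m).symm
    have ckR2 : ∀ r s p t, p < t → Commute (kk l K1 r s) (rv q E2 p t) := fun r s p t hpt =>
      comm_kk r s fun j => cK p t hpt j
    have ckk := fun r s t u => kk_comm (l := l) h.K_comm r s t u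
    rw [rv_succ q _ i j hij, ih]
    rw [rv_succ q E1 i j hij, rv_succ q E2 i j hij, Ioo_succ_sum _ i j hij]
    have ec : cE l E1 K1 E2 i = E1 i + kk l K1 i (i + 1) * E2 i := rfl
    rw [ec]
    -- the six groups
    have w3 : kk l K1 (i + 1) j * E1 i = q⁻¹ • (E1 i * kk l K1 (i + 1) j) := by
      have := wt_kk hl hq h (i + 1) j i (i + 1) (by omega)
      rw [rv_base] at this
      refine (this.of_eq ?_)
      rw [← zpow_neg_one]; congr 1
      unfold ew; split_ifs <;> omega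
    have w4 : kk l K1 i (i + 1) * rv q E1 (i + 1) j
        = q⁻¹ • (rv q E1 (i + 1) j * kk l K1 i (i + 1)) := by
      have := wt_kk hl hq h i (i + 1) (i + 1) j (by omega)
      refine (this.of_eq ?_)
      rw [← zpow_neg_one]; congr 1
      unfold ew; split_ifs <;> omega
    have G3 := g3 (q := q) (E1 i) (kk l K1 (i + 1) j) (rv q E2 (i + 1) j) w3
      (cE1 _ _ hij i)
    have G4 := g4 (q := q) (kk l K1 i (i + 1)) (E2 i) (rv q E1 (i + 1) j) w4 (cRv _ _ hij i)
    have G6 := g6 (q := q) (kk l K1 i (i + 1)) (E2 i) (kk l K1 (i + 1) j) (rv q E2 (i + 1) j)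
      (ckE2 _ _ _) (ckk _ _ _ _) (ckR2 _ _ _ _ hij)
    have GS : (E1 i + kk l K1 i (i + 1) * E2 i) *
          (∑ p ∈ Finset.Ioo (i + 1) j, rv q E1 (i + 1) p * (kk l K1 p j * rv q E2 p j))
        - q⁻¹ • ((∑ p ∈ Finset.Ioo (i + 1) j, rv q E1 (i + 1) p * (kk l K1 p j * rv q E2 p j))
          * (E1 i + kk l K1 i (i + 1) * E2 i))
        = ∑ p ∈ Finset.Ioo (i + 1) j, rv q E1 i p * (kk l K1 p j * rv q E2 p j) := by
      rw [Finset.mul_sum, Finset.sum_mul, Finset.smul_sum, ← Finset.sum_sub_distrib]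
      refine Finset.sum_congr rfl fun p hp => ?_
      rw [Finset.mem_Ioo] at hp
      have w2 : E1 i * kk l K1 p j = kk l K1 p j * E1 i := by
        have := wt_kk hl hq h p j i (i + 1) (by omega)
        rw [rv_base] at this
        have h0 : ew p i (i + 1) - ew j i (i + 1) = 0 := by
          unfold ew; split_ifs <;> omega
        rw [h0, zpow_zero] at this
        unfold Wt at this
        rw [this, one_smul]
      have w5 : kk l K1 i (i + 1) * rv q E1 (i + 1) p
          = q⁻¹ • (rv q E1 (i + 1) p * kk l K1 i (i + 1)) := by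
        have := wt_kk hl hq h i (i + 1) (i + 1) p (by omega)
        refine (this.of_eq ?_)
        rw [← zpow_neg_one]; congr 1
        unfold ew; split_ifs <;> omega
      have G2 := g2 (q := q) (E1 i) (rv q E1 (i + 1) p) (kk l K1 p j) (rv q E2 p j) w2
        (cE1 _ _ hp.2 i)
      have G5 := g5 (q := q) (kk l K1 i (i + 1)) (E2 i) (rv q E1 (i + 1) p) (kk l K1 p j)
        (rv q E2 p j) w5 (cRv _ _ hp.1 i) (sR2 B q E2 h2 p j i hp.2 (Or.inl (by omega)))
        (ckE2 _ _ _) (ckk _ _ _ _) (ckR2 _ _ _ _ hp.2)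
      rw [rv_succ q E1 i p hp.1, ← G2, add_mul, mul_add, smul_add, add_sub_add_comm, G5, add_zero]
    have kkm := kk_mul hl h.K_comm h.K_pow i (i + 1) j
    rw [rv_base, ← kkm]
    generalize ∑ p ∈ Finset.Ioo (i + 1) j, rv q E1 (i + 1) p * (kk l K1 p j * rv q E2 p j) = S at *
    generalize ∑ p ∈ Finset.Ioo (i + 1) j, rv q E1 i p * (kk l K1 p j * rv q E2 p j) = S' at *
    generalize kk l K1 i (i + 1) = k at *
    generalize kk l K1 (i + 1) j = κ at *
    generalize rv q E2 (i + 1) j = Y at *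
    generalize rv q E1 (i + 1) j = A at *
    generalize E1 i = a at *
    generalize E2 i = b at *
    linear_combination (norm := skip) (1 - q⁻¹ ^ 2) • GS + G3 + G4 + G6
    simp only [mul_add, add_mul, mul_sub, sub_mul, mul_smul_comm, smul_mul_assoc, smul_sub,
      smul_add, smul_smul, mul_assoc]
    module

end

theorem sCR : S_CR := by
  intro B _ _ l q E1 K1 E2 hl hq h h2 hE hK i j hij
  obtain ⟨d, rfl⟩ := Nat.exists_eq_add_of_lt hij
  exact cr_aux l E1 K1 E2 hl hq h h2 hE hK d i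

end Pool.Agent.Helper29.SQ
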