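import Pool.Agent.Helper19.SQ.GoalsQ

/-!
Project SQ (MP_bb32d1_al), packet CS (helper29): the Serre relations for `x_i + y_i`.
-/

namespace Pool.Agent.Helper29.SQ

open Pool.Agent.Helper19.SQ

theorem cs_aux {B : Type} [Ring B] [Algebra ℂ B] (q : ℂ) (hq : q ≠ 0) (x y x' y' : B)
    (h1 : x ^ 2 * x' - (q + q⁻¹) • (x * x' * x) + x' * x ^ 2 = 0)
    (h2 : y ^ 2 * y' - (q + q⁻¹) • (y * y' * y) + y' * y ^ 2 = 0)
    (a : y * x = q ^ 2 • (x * y)) (b : y * x' = q⁻¹ • (x' * y)) (c : y' * x = q⁻¹ • (x * y')) :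
    (x + y) ^ 2 * (x' + y') - (q + q⁻¹) • ((x + y) * (x' + y') * (x + y))
      + (x' + y') * (x + y) ^ 2 = 0 := by
  have a' : ∀ z, y * (x * z) = q ^ 2 • (x * (y * z)) := fun z => by
    rw [← mul_assoc, a, smul_mul_assoc, mul_assoc]
  have b' : ∀ z, y * (x' * z) = q⁻¹ • (x' * (y * z)) := fun z => by
    rw [← mul_assoc, b, smul_mul_assoc, mul_assoc]
  have c' : ∀ z, y' * (x * z) = q⁻¹ • (x * (y' * z)) := fun z => by
    rw [← mul_assoc, c, smul_mul_assoc, mul_assoc]
  linear_combination (norm := skip) h1 + h2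
  simp only [pow_two, mul_add, add_mul, mul_smul_comm, smul_mul_assoc, smul_add, smul_smul,
    mul_assoc, a, b, c, a', b', c', smul_sub, mul_sub, sub_mul]
  match_scalars <;> field_simp <;> ring

theorem sCS : S_CS := by
  intro B _ _ q x y hq hx hy hxy
  have e0 : ∀ i j, (i + 1 < j ∨ j + 1 < i) → y i * x j = x j * y i := by
    intro i j hij
    rw [hxy]
    have : pr i j - pr (i + 1) j = 0 := by
      unfold pr
      split_ifs <;> omega
    rw [this, zpow_zero, one_smul]
  have e1 : ∀ i, y i * x i = q ^ 2 • (x i * y i) := by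
    intro i
    rw [hxy]
    have : pr i i - pr (i + 1) i = 2 := by
      unfold pr
      split_ifs <;> omega
    rw [this]
    norm_cast
  have e2 : ∀ i, y i * x (i + 1) = q⁻¹ • (x (i + 1) * y i) := by
    intro i
    rw [hxy]
    have : pr i (i + 1) - pr (i + 1) (i + 1) = -1 := by
      unfold pr
      split_ifs <;> omega
    rw [this, zpow_neg_one]
  have e3 : ∀ i, y (i + 1) * x i = q⁻¹ • (x i * y (i + 1)) := by
    intro i
    rw [hxy]
    have : pr (i + 1) i - pr (i + 1 + 1) i = -1 := by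
      unfold pr
      split_ifs <;> omega
    rw [this, zpow_neg_one]
  refine ⟨fun i j hij => ?_, fun i => ?_, fun i => ?_⟩
  · have f1 := hx.far i j hij
    have f2 := hy.far i j hij
    have f3 := e0 i j (Or.inl hij)
    have f4 := e0 j i (Or.inr hij)
    simp only [mul_add, add_mul, f1, f2, f3, ← f4]
    abel
  · exact cs_aux q hq _ _ _ _ (hx.s1 i) (hy.s1 i) (e1 i) (e2 i) (e3 i)
  · have := cs_aux q hq _ _ _ _
      (show x (i + 1) ^ 2 * x i - (q + q⁻¹) • (x (i + 1) * x i * x (i + 1)) + x i * x (i + 1) ^ 2 = 0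
        from hx.s2 i)
      (hy.s2 i) (e1 (i + 1)) (e3 i) (e2 i)
    exact this

end Pool.Agent.Helper29.SQ
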