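import Pool.Agent.Helper29.SQ.RD

/-!
Project SQ (MP_bb32d1_al), packet RO (helper29): opposite root vectors.
-/

namespace Pool.Agent.Helper29.SQ

open Pool.Agent.Helper19.SQ

open MulOpposite

/-- the opposite family satisfies the Serre relations. -/
theorem serre_op {B : Type} [Ring B] [Algebra ℂ B] {q : ℂ} {E : ℕ → B} (h : SerreRel q E) :
    SerreRel q (fun i => op (E i)) where
  far i j hij := by
    rw [← op_mul, ← op_mul, h.far i j hij]
  s1 i := by
    have h1 := congrArg op (h.s1 i)
    rw [op_zero] at h1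
    rw [← h1]
    simp only [op_add, op_sub, op_smul, op_mul, op_pow, mul_assoc]
    abel
  s2 i := by
    have h1 := congrArg op (h.s2 i)
    rw [op_zero] at h1
    rw [← h1]
    simp only [op_add, op_sub, op_smul, op_mul, op_pow, mul_assoc]
    abel

theorem rvA_op {B : Type} [Ring B] [Algebra ℂ B] (q : ℂ) (E : ℕ → B) :
    ∀ d i, rvA q (fun i => op (E i)) d i = op (rvoA q E d i)
  | 0, _ => rfl
  | d + 1, i => by
    simp only [rvA, rvoA, rvA_op q E d (i + 1), op_sub, op_mul, op_smul]

theorem rv_op {B : Type} [Ring B] [Algebra ℂ B] (q : ℂ) (E : ℕ → B) (i j : ℕ) :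
    rv q (fun i => op (E i)) i j = op (rvo q E i j) := rvA_op q E _ _

theorem sRO : S_RO := by
  intro B _ _ q E hq hq2 h
  have ho := serre_op h
  refine ⟨fun i j k hij hk => ?_, fun i j hij => ?_, fun i j hij => ?_, fun i j hij => ?_,
    fun i j k hik hkj => ?_⟩
  · have := sR2 Bᵐᵒᵖ q _ ho i j k hij hk
    rw [rv_op] at this
    exact (congrArg unop this).symm
  · have := sR3 Bᵐᵒᵖ q _ ho i j hij
    rw [rv_op, rv_op] at this
    exact congrArg unop this
  · have := sR4 Bᵐᵒᵖ q _ hq ho i j hij
    rw [rv_op] at this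
    exact congrArg unop this
  · have := sR5 Bᵐᵒᵖ q _ hq ho i j hij
    rw [rv_op] at this
    exact congrArg unop this
  · have := sR6 Bᵐᵒᵖ q _ hq hq2 ho i j k hik hkj
    rw [rv_op] at this
    exact (congrArg unop this).symm

end Pool.Agent.Helper29.SQ
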