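import Pool.Agent.Helper29.SQ.RO
import Pool.Agent.Helper19.SQ.GoalsH

/-!
Project SQ (MP_bb32d1_al), helper29: the collection S_ROOT of the relations R2, ..., R11.
-/

namespace Pool.Agent.Helper29.SQ

open Pool.Agent.Helper19.SQ

theorem sROOT : S_ROOT := by
  intro B _ _ q E hq hq2 h
  exact
    { rec' := fun i j hij => rv_succ q E i j hij
      base := fun i => rv_base q E i
      R2 := fun k i j hij hk => sR2 B q E h i j k hij hk
      R3 := fun i j hij => sR3 B q E h i j hij
      R4 := fun i j hij => sR4 B q E hq h i j hij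
      R5 := fun i j hij => sR5 B q E hq h i j hij
      R6 := fun i k j hik hkj => sR6 B q E hq hq2 h i j k hik hkj
      R8 := fun i j k l hik hkl hlj => sR8 B q E hq hq2 h i j k l hik hkl hlj
      R9 := fun i j k l hij hjk hkl => sR9 B q E h i j k l hij hjk hkl
      R10 := fun i j k hij hjk => sR10 B q E hq hq2 h i j k hij hjk
      R11 := fun i j k hij hjk => sR11 B q E hq hq2 h i j k hij hjk }

end Pool.Agent.Helper29.SQ
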