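import Pool.Agent.Helper19.SQ.GoalsQ2

/-!
Project SQ (MP_bb32d1_al), packet XC (helper29): `X` commutes with `delta(A)`.
-/

namespace Pool.Agent.Helper29.SQ

open Pool.Agent.Helper19.SQ

theorem sXC (hLE : S_LE) (hLF : S_LF) (hLK : S_LK) (hYE : S_YE) (hYF : S_YF) (hYK : S_YK) :
    S_XC := by
  intro N l q hP D a
  refine A_induction (P := fun a => Xm N l q * D.dl a = D.dl a * Xm N l q) (fun c => ?_)
    (fun i => ?_) (fun i => ?_) (fun i => ?_) (fun a b ha hb => ?_) (fun a b ha hb => ?_) a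
  · rw [AlgHom.commutes]
    exact (Algebra.commutes c _).symm
  · rw [D.dl_E]
    unfold Xm
    rw [Matrix.mul_assoc, hLE _ N l q _ _ _ hP (glA N l q) i, ← Matrix.mul_assoc,
      hYE _ N l q _ _ _ hP (glA N l q) i, Matrix.mul_assoc]
  · rw [D.dl_F]
    unfold Xm
    rw [Matrix.mul_assoc, hLF _ N l q _ _ _ hP (glA N l q) i, ← Matrix.mul_assoc,
      hYF _ N l q _ _ _ hP (glA N l q) i, Matrix.mul_assoc]
  · rw [D.dl_K]
    unfold Xm
    rw [Matrix.mul_assoc, hLK _ N l q _ _ _ hP (glA N l q) i, ← Matrix.mul_assoc,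
      hYK _ N l q _ _ _ hP (glA N l q) i, Matrix.mul_assoc]
  · rw [map_add, mul_add, add_mul, ha, hb]
  · rw [map_mul, ← mul_assoc, ha, mul_assoc, hb, ← mul_assoc]

end Pool.Agent.Helper29.SQ
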