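import Pool.Agent.Helper29.SQ.RA

/-!
Project SQ (MP_bb32d1_al), packet KW (helper29): weights of the root vectors.
-/

namespace Pool.Agent.Helper29.SQ

open Pool.Agent.Helper19.SQ

theorem sKI : S_KI := by
  intro B _ _ l K hl hc hp
  have h1 : ∀ j, K j * ki l K j = 1 := fun j => by
    show K j * K j ^ (l - 1) = 1
    rw [← pow_succ', Nat.sub_add_cancel hl, hp]
  have h2 : ∀ j, ki l K j * K j = 1 := fun j => by
    show K j ^ (l - 1) * K j = 1
    rw [← pow_succ, Nat.sub_add_cancel hl, hp]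
  have h6 : ∀ j, ki l K j ^ l = 1 := fun j => by
    show (K j ^ (l - 1)) ^ l = 1
    rw [← pow_mul, mul_comm, pow_mul, hp, one_pow]
  refine ⟨h1, h2, fun i j => ?_, fun i j => ?_, fun j => ?_, h6⟩
  · exact (show Commute (K i) (K j) from hc i j).pow_right _
  · exact ((show Commute (K i) (K j) from hc i j).pow_right _).pow_left _
  · show (ki l K j) ^ (l - 1) = K j
    calc (ki l K j) ^ (l - 1) = (ki l K j) ^ (l - 1) * (ki l K j * K j) := by rw [h2, mul_one]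
      _ = (ki l K j) ^ (l - 1 + 1) * K j := by rw [pow_succ, mul_assoc]
      _ = K j := by rw [Nat.sub_add_cancel hl, h6, one_mul]

section

variable {B : Type} [Ring B] [Algebra ℂ B]

/-- `P R = c R P`. -/
def Wt (P R : B) (c : ℂ) : Prop := P * R = c • (R * P)

theorem Wt.mul {P R S : B} {c d : ℂ} (h1 : Wt P R c) (h2 : Wt P S d) : Wt P (R * S) (c * d) := by
  unfold Wt at *
  rw [← mul_assoc, h1, smul_mul_assoc, mul_assoc, h2, mul_smul_comm, smul_smul, mul_assoc]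

theorem Wt.sub {P R S : B} {c : ℂ} (h1 : Wt P R c) (h2 : Wt P S c) : Wt P (R - S) c := by
  unfold Wt at *
  rw [mul_sub, sub_mul, smul_sub, h1, h2]

theorem Wt.smul {P R : B} {c : ℂ} (h1 : Wt P R c) (d : ℂ) : Wt P (d • R) c := by
  unfold Wt at *
  rw [mul_smul_comm, smul_mul_assoc, h1, smul_comm]

theorem Wt.inv {P P' R : B} {c : ℂ} (h1 : Wt P R c) (hc : c ≠ 0) (h2 : P * P' = 1)
    (h3 : P' * P = 1) : Wt P' R c⁻¹ := by
  unfold Wt at *
  have e : P' * (P * R) * P' = c • (P' * R) := by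
    rw [h1, mul_smul_comm, smul_mul_assoc, mul_assoc, mul_assoc, h2, mul_one]
  rw [← mul_assoc, h3, one_mul] at e
  rw [e, smul_smul, inv_mul_cancel₀ hc, one_smul]

theorem wt_rvA {P : B} {q : ℂ} {E : ℕ → B} (hq : q ≠ 0) (w : ℕ → ℤ)
    (h : ∀ i, Wt P (E i) (q ^ (w i - w (i + 1)))) :
    ∀ d i, Wt P (rvA q E d i) (q ^ (w i - w (i + d + 1)))
  | 0, i => h i
  | d + 1, i => by
    have ih := wt_rvA hq w h d (i + 1)
    have e : q ^ (w i - w (i + 1)) * q ^ (w (i + 1) - w (i + 1 + d + 1))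
      = q ^ (w i - w (i + (d + 1) + 1)) := by
      rw [← zpow_add₀ hq]; congr 1
      rw [show i + (d + 1) + 1 = i + 1 + d + 1 by ring]; ring
    have h1 := (h i).mul ih
    have h2 := ih.mul (h i)
    rw [mul_comm, e] at h2
    rw [e] at h1
    exact h1.sub (h2.smul _)

theorem wt_rvoA {P : B} {q : ℂ} {E : ℕ → B} (hq : q ≠ 0) (w : ℕ → ℤ)
    (h : ∀ i, Wt P (E i) (q ^ (w i - w (i + 1)))) :
    ∀ d i, Wt P (rvoA q E d i) (q ^ (w i - w (i + d + 1)))
  | 0, i => h i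
  | d + 1, i => by
    have ih := wt_rvoA hq w h d (i + 1)
    have e : q ^ (w i - w (i + 1)) * q ^ (w (i + 1) - w (i + 1 + d + 1))
      = q ^ (w i - w (i + (d + 1) + 1)) := by
      rw [← zpow_add₀ hq]; congr 1
      rw [show i + (d + 1) + 1 = i + 1 + d + 1 by ring]; ring
    have h1 := (h i).mul ih
    have h2 := ih.mul (h i)
    rw [mul_comm, e] at h2
    rw [e] at h1
    exact h2.sub (h1.smul _)

end

theorem sHF : S_HF := by
  intro B _ _ N l q E F K hl hq h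
  obtain ⟨k1, k2, k3, k4, k5, k6⟩ := sKI B l K hl h.K_comm h.K_pow
  refine ⟨⟨h.K_comm, h.K_pow, h.KE, h.sE, h.pE⟩, ⟨k4, k6, fun j i => ?_, h.sF, h.pF⟩⟩
  have := Wt.inv (show Wt (K j) (F i) (q ^ (-pr j i)) from h.KF j i) (zpow_ne_zero _ hq)
    (k1 j) (k2 j)
  rw [← zpow_neg, neg_neg] at this
  exact this

theorem pr_eq_ew (p i : ℕ) : pr p i = (if p = i then 1 else 0) - (if p = i + 1 then 1 else 0) := by
  unfold pr
  split_ifs <;> omega

theorem sKW : S_KW := by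
  intro B _ _ l q E K hl hq h p i j hij
  obtain ⟨k1, k2, k3, k4, k5, k6⟩ := sKI B l K hl h.K_comm h.K_pow
  have hw : ∀ i, Wt (K p) (E i) (q ^ ((fun k => if p = k then (1 : ℤ) else 0) i
      - (fun k => if p = k then (1 : ℤ) else 0) (i + 1))) := by
    intro i
    have := h.KE p i
    rw [pr_eq_ew] at this
    exact this
  obtain ⟨d, rfl⟩ := Nat.exists_eq_add_of_lt hij
  have w1 := wt_rvA hq _ hw d i
  have w2 := wt_rvoA hq _ hw d i
  rw [rv_eq_rvA, rvo_eq_rvoA]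
  refine ⟨w1, ?_, w2, ?_⟩
  · have := w1.inv (zpow_ne_zero _ hq) (k1 p) (k2 p)
    rw [← zpow_neg] at this
    exact this
  · have := w2.inv (zpow_ne_zero _ hq) (k1 p) (k2 p)
    rw [← zpow_neg] at this
    exact this

theorem sKG : S_KG := by
  intro B _ _ N l q E F K hl hq h p i j hij
  obtain ⟨k1, k2, k3, k4, k5, k6⟩ := sKI B l K hl h.K_comm h.K_pow
  obtain ⟨hE, hF⟩ := sHF B N l q E F K hl hq h
  obtain ⟨a1, a2, a3, a4⟩ := sKW B l q E K hl hq hE p i j hij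
  obtain ⟨b1, b2, b3, b4⟩ := sKW B l q F (ki l K) hl hq hF p i j hij
  rw [k5] at b2 b4
  exact ⟨⟨a1, a2⟩, ⟨b2, b1⟩, ⟨b4, b3⟩⟩

end Pool.Agent.Helper29.SQ
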