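import Pool.Agent.Helper4.SQ.GoalsR2

/-!
Project SQ (MP_bb32d1_al), stage B, part Q: packet OPB, the operators and the blocks.
-/

set_option autoImplicit false
set_option linter.unusedSectionVars false

namespace Pool.Agent.Helper29.SQ

open Matrix Pool.Agent.Helper19.SQ Pool.Agent.Helper34.SQ Pool.Agent.Helper41.SQ
  Pool.Agent.Helper4.SQ

section

variable {A : Type} [Ring A] [Algebra ℂ A] {ι : Type} [Fintype ι] [DecidableEq ι] {l : ℕ}

theorem tr_diag (M : Matrix ι ι A) (e : A) :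
    Matrix.trace (M * Matrix.diagonal (fun _ => e)) = Matrix.trace M * e := by
  simp only [Matrix.trace, Matrix.diag_apply, Matrix.mul_diagonal]
  rw [Finset.sum_mul]

theorem blk_trace {C : Core A ι l} {m : ZMod l → ℤ} {τ : A →ₗ[ℂ] ℂ} (h : IsTrz C 1 m τ)
    (M : Matrix ι ι A) :
    τ (Matrix.trace (M * Matrix.diagonal (fun _ => C.e m))) = τ (Matrix.trace M) := by
  rw [tr_diag, h.blk]

theorem pev_mul' (p g : Polynomial ℂ) (X : Matrix ι ι A) :
    pev (p * g) X = pev p X * pev g X := by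
  unfold pev
  rw [map_mul]

theorem sOPB (hOPT : S_OPT) (hBLE : S_BLE) (hDPV : S_DPV) (hDP2 : S_DP2) : S_OPB := by
  intro A _ _ ι _ _ l C c m τ h
  have hX : ∀ (p : Polynomial ℂ) (a : A), pev p C.X * C.δ a = C.δ a * pev p C.X := fun p a =>
    pev_comm (C.Xδ a) p
  obtain ⟨v1, v2, v3, -⟩ := hDPV A ι C.δ C.ε (hDP2 A ι C.toCore0).1
  have hT : τ ∈ Tinv C.toCore0 := ⟨h.tr, fun x => by rw [h.eq, one_mul]⟩
  obtain ⟨o1, o2, o3⟩ := hOPT A ι C.toCore0
  have hF : ∀ g x, FO C.toCore0 (C.pc c * g) τ x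
      = τ (Matrix.trace (C.δ (x * C.e (m - al c)) * pev g C.X)) := by
    intro g x
    have e1 : C.δ x * pev (C.pc c * g) C.X * Matrix.diagonal (fun _ => C.e m)
        = C.δ (x * C.e (m - al c)) * pev g C.X * Matrix.diagonal (fun _ => C.e m) := by
      rw [mul_comm (C.pc c) g, pev_mul', mul_assoc, mul_assoc, C.BL1 c m, ← mul_assoc (pev g C.X),
        hX g, map_mul, mul_assoc, mul_assoc, mul_assoc]
    rw [FO_apply, ← blk_trace h, e1, blk_trace h]
  have hE : ∀ g x, EO C.toCore0 (C.pc c * g) τ x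
      = τ (Matrix.trace (C.ε (x * C.e (m + al c)) * vv C.ε (pev g C.X))) := by
    intro g x
    have e1 : C.ε x * vv C.ε (pev (C.pc c * g) C.X) * Matrix.diagonal (fun _ => C.e m)
        = C.ε (x * C.e (m + al c)) * vv C.ε (pev g C.X) * Matrix.diagonal (fun _ => C.e m) := by
      rw [pev_mul', v2 _ (hX (C.pc c)), mul_assoc, mul_assoc, hBLE A ι l C c m,
        ← mul_assoc (vv C.ε (pev g C.X)), v1 _ (hX g), map_mul, mul_assoc, mul_assoc, mul_assoc]
    rw [EO_apply, ← blk_trace h, e1, blk_trace h]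
  refine ⟨?_, ?_, hF, hE, ⟨?_, ?_⟩, ?_⟩
  · intro g
    obtain ⟨a1, a2⟩ := o1 (C.pc c * g) τ hT
    refine ⟨a1, fun x => by rw [one_mul]; exact a2 x, fun x => ?_⟩
    rw [hF, hF, mul_assoc x, C.e_idem]
  · intro g
    obtain ⟨a1, a2⟩ := o2 (C.pc c * g) τ hT
    refine ⟨a1, fun x => by rw [one_mul]; exact a2 x, fun x => ?_⟩
    rw [hE, hE, mul_assoc x, C.e_idem]
  · ext x
    have e1 := hF 1 x
    rw [mul_one] at e1
    rw [e1, Ft_apply]
    have : pev (1 : Polynomial ℂ) C.X = 1 := by unfold pev; rw [map_one]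
    rw [this, mul_one]
  · ext x
    have e1 := hE 1 x
    rw [mul_one] at e1
    rw [e1, Et_apply]
    have : pev (1 : Polynomial ℂ) C.X = 1 := by unfold pev; rw [map_one]
    rw [this, v3, mul_one]
  · intro z hz hφ
    obtain ⟨a1, a2⟩ := o3 z hz hφ τ hT
    refine ⟨a1, fun x => by rw [one_mul]; exact a2 x, fun x => ?_⟩
    rw [MO_apply, MO_apply, ← mul_assoc, h.blk]

end

end Pool.Agent.Helper29.SQ
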