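import Pool.Agent.Helper19.SQ.GoalsQ

/-!
Project SQ (MP_bb32d1_al), packets RA, RB, RC, RD (helper29): relations of the root vectors.
-/

namespace Pool.Agent.Helper29.SQ

open Pool.Agent.Helper19.SQ

section

variable {B : Type} [Ring B] [Algebra ℂ B]

theorem rv_eq_rvA (q : ℂ) (E : ℕ → B) (i d : ℕ) : rv q E i (i + d + 1) = rvA q E d i := by
  unfold rv
  congr 1
  omega

theorem rvo_eq_rvoA (q : ℂ) (E : ℕ → B) (i d : ℕ) : rvo q E i (i + d + 1) = rvoA q E d i := by
  unfold rvo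
  congr 1
  omega

theorem rv_base (q : ℂ) (E : ℕ → B) (i : ℕ) : rv q E i (i + 1) = E i := rv_eq_rvA q E i 0

theorem rv_succ (q : ℂ) (E : ℕ → B) (i j : ℕ) (h : i + 1 < j) :
    rv q E i j = E i * rv q E (i + 1) j - q⁻¹ • (rv q E (i + 1) j * E i) := by
  obtain ⟨d, rfl⟩ := Nat.exists_eq_add_of_lt h
  rw [show i + 1 + d + 1 = i + (d + 1) + 1 by ring, rv_eq_rvA]
  rw [show i + (d + 1) + 1 = i + 1 + d + 1 by ring, rv_eq_rvA]
  rfl

theorem comm_rvA (q : ℂ) (E : ℕ → B) (x : B) : ∀ d i,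
    (∀ m, i ≤ m → m ≤ i + d → Commute x (E m)) → Commute x (rvA q E d i)
  | 0, i, h => h i le_rfl (by omega)
  | d + 1, i, h => by
    have h1 := comm_rvA q E x d (i + 1) (fun m h1 h2 => h m (by omega) (by omega))
    have h0 := h i le_rfl (by omega)
    exact (h0.mul_right h1).sub_right ((h1.mul_right h0).smul_right _)

theorem comm_rv (q : ℂ) (E : ℕ → B) (x : B) (i j : ℕ) (hij : i < j)
    (h : ∀ m, i ≤ m → m < j → Commute x (E m)) : Commute x (rv q E i j) := by
  obtain ⟨d, rfl⟩ := Nat.exists_eq_add_of_lt hij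
  rw [rv_eq_rvA]
  exact comm_rvA q E x d i fun m h1 h2 => h m h1 (by omega)

theorem comm_rvoA (q : ℂ) (E : ℕ → B) (x : B) : ∀ d i,
    (∀ m, i ≤ m → m ≤ i + d → Commute x (E m)) → Commute x (rvoA q E d i)
  | 0, i, h => h i le_rfl (by omega)
  | d + 1, i, h => by
    have h1 := comm_rvoA q E x d (i + 1) (fun m h1 h2 => h m (by omega) (by omega))
    have h0 := h i le_rfl (by omega)
    exact (h1.mul_right h0).sub_right ((h0.mul_right h1).smul_right _)

theorem serre_far {q : ℂ} {E : ℕ → B} (h : SerreRel q E) (i j : ℕ) (hij : i + 1 < j ∨ j + 1 < i) :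
    Commute (E i) (E j) := by
  rcases hij with hij | hij
  · exact h.far i j hij
  · exact (h.far j i hij).symm

end

theorem sR2 : S_R2 := by
  intro B _ _ q E h i j k hij hk
  refine comm_rv q E (E k) i j hij fun m h1 h2 => serre_far h k m ?_
  omega

theorem sR9 : S_R9 := by
  intro B _ _ q E h i j k m hij hjk hkm
  refine comm_rv q E _ k m hkm fun p h1 h2 => ?_
  exact (show Commute _ _ from sR2 B q E h i j p hij (Or.inr (by omega))).symm

/-- form of R3 for `rvA`. -/
theorem rvA_right {B : Type} [Ring B] [Algebra ℂ B] {q : ℂ} {E : ℕ → B} (h : SerreRel q E) :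
    ∀ d i, rvA q E (d + 1) i = rvA q E d i * E (i + d + 1) - q⁻¹ • (E (i + d + 1) * rvA q E d i)
  | 0, i => rfl
  | d + 1, i => by
    have ih := rvA_right h d (i + 1)
    have e1 : rvA q E (d + 1 + 1) i
      = E i * rvA q E (d + 1) (i + 1) - q⁻¹ • (rvA q E (d + 1) (i + 1) * E i) := rfl
    have e2 : rvA q E (d + 1) i
      = E i * rvA q E d (i + 1) - q⁻¹ • (rvA q E d (i + 1) * E i) := rfl
    have hc : E i * E (i + 1 + d + 1) = E (i + 1 + d + 1) * E i := h.far _ _ (by omega)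
    rw [show i + (d + 1) + 1 = i + 1 + d + 1 by ring, e1, e2, ih]
    generalize E (i + 1 + d + 1) = c at *
    generalize E i = a at *
    generalize rvA q E d (i + 1) = X at *
    linear_combination (norm := (simp only [mul_sub, sub_mul, mul_smul_comm, smul_mul_assoc,
      smul_sub, smul_smul, mul_assoc]; module)) (-q⁻¹) • (hc * X) + q⁻¹ • (X * hc)

theorem sR3 : S_R3 := by
  intro B _ _ q E h i j hij
  obtain ⟨d, rfl⟩ := Nat.exists_eq_add_of_lt hij
  rw [show i + d + 1 + 1 = i + (d + 1) + 1 by ring, rv_eq_rvA, rv_eq_rvA, rvA_right h]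

end Pool.Agent.Helper29.SQ
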