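import Pool.Agent.Helper29.SQ.RA

/-!
Project SQ (MP_bb32d1_al), packets RB, RC (helper29): relations of the root vectors.
-/

namespace Pool.Agent.Helper29.SQ

open Pool.Agent.Helper19.SQ

section

variable {B : Type} [Ring B] [Algebra ℂ B] {q : ℂ} {E : ℕ → B}

theorem rvA_one (q : ℂ) (E : ℕ → B) (i : ℕ) :
    rvA q E 1 i = E i * E (i + 1) - q⁻¹ • (E (i + 1) * E i) := rfl

theorem rvA_R4 (hq : q ≠ 0) (h : SerreRel q E) :
    ∀ d i, E i * rvA q E (d + 1) i = q • (rvA q E (d + 1) i * E i)
  | 0, i => by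
    have h1 := h.s1 i
    rw [zero_add, rvA_one]
    generalize E i = a at *
    generalize E (i + 1) = b at *
    linear_combination (norm := skip) h1
    simp only [mul_sub, sub_mul, mul_smul_comm, smul_mul_assoc, smul_sub, smul_smul, mul_assoc,
      pow_two]
    match_scalars <;> field_simp <;> ring
  | d + 1, i => by
    have ih := rvA_R4 hq h d i
    rw [rvA_right h (d + 1) i]
    have hc : E i * E (i + (d + 1) + 1) = E (i + (d + 1) + 1) * E i := h.far _ _ (by omega)
    generalize rvA q E (d + 1) i = Y at *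
    generalize E (i + (d + 1) + 1) = c at *
    generalize E i = a at *
    linear_combination (norm := skip) ih * c + (q • (Y * hc)) - q⁻¹ • (hc * Y) - q⁻¹ • (c * ih)
    simp only [mul_sub, sub_mul, mul_smul_comm, smul_mul_assoc, smul_sub, smul_smul, mul_assoc]
    match_scalars <;> field_simp <;> ring

theorem rvA_R5 (hq : q ≠ 0) (h : SerreRel q E) :
    ∀ d i, rvA q E (d + 1) i * E (i + d + 1) = q • (E (i + d + 1) * rvA q E (d + 1) i)
  | 0, i => by
    have h1 := h.s2 i
    rw [zero_add, rvA_one]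
    rw [show i + 0 + 1 = i + 1 by ring]
    generalize E i = a at *
    generalize E (i + 1) = b at *
    linear_combination (norm := skip) h1
    simp only [mul_sub, sub_mul, mul_smul_comm, smul_mul_assoc, smul_sub, smul_smul, mul_assoc,
      pow_two]
    match_scalars <;> field_simp <;> ring
  | d + 1, i => by
    have ih := rvA_R5 hq h d (i + 1)
    have e : rvA q E (d + 1 + 1) i
      = E i * rvA q E (d + 1) (i + 1) - q⁻¹ • (rvA q E (d + 1) (i + 1) * E i) := rfl
    rw [e, show i + (d + 1) + 1 = i + 1 + d + 1 by ring]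
    have hc : E i * E (i + 1 + d + 1) = E (i + 1 + d + 1) * E i := h.far _ _ (by omega)
    generalize rvA q E (d + 1) (i + 1) = Y at *
    generalize E (i + 1 + d + 1) = c at *
    generalize E i = a at *
    linear_combination (norm := skip) a * ih + (q • (hc * Y)) - q⁻¹ • (Y * hc) - q⁻¹ • (ih * a)
    simp only [mul_sub, sub_mul, mul_smul_comm, smul_mul_assoc, smul_sub, smul_smul, mul_assoc]
    match_scalars <;> field_simp <;> ring

theorem rvA_R6_base (hq : q ≠ 0) (hq2 : q ^ 2 ≠ -1) (h : SerreRel q E) (i : ℕ) :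
    E (i + 1) * rvA q E 2 i = rvA q E 2 i * E (i + 1) := by
  have hx1 : rvA q E 2 i = E i * rvA q E 1 (i + 1) - q⁻¹ • (rvA q E 1 (i + 1) * E i) := rfl
  have hx2 : rvA q E 2 i = rvA q E 1 i * E (i + 2) - q⁻¹ • (E (i + 2) * rvA q E 1 i) :=
    rvA_right h 1 i
  have hv : rvA q E 1 (i + 1) = E (i + 1) * E (i + 2) - q⁻¹ • (E (i + 2) * E (i + 1)) := rfl
  have hu : rvA q E 1 i = E i * E (i + 1) - q⁻¹ • (E (i + 1) * E i) := rfl
  have hub : rvA q E 1 i * E (i + 1) = q • (E (i + 1) * rvA q E 1 i) := rvA_R5 hq h 0 i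
  have hbv : E (i + 1) * rvA q E 1 (i + 1) = q • (rvA q E 1 (i + 1) * E (i + 1)) :=
    rvA_R4 hq h 0 (i + 1)
  generalize rvA q E 2 i = x at *
  generalize rvA q E 1 (i + 1) = v at *
  generalize rvA q E 1 i = u at *
  generalize E (i + 2) = c at *
  generalize E (i + 1) = b at *
  generalize E i = a at *
  -- the four formulas
  have h1 : b * x = b * a * v - v * b * a := by
    linear_combination (norm := skip) b * hx1 - q⁻¹ • (hbv * a)
    simp only [mul_sub, sub_mul, mul_smul_comm, smul_mul_assoc, smul_sub, smul_smul, mul_assoc]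
    match_scalars <;> field_simp <;> ring
  have h2 : x * b = q⁻¹ • (a * b * v - v * a * b) := by
    linear_combination (norm := skip) hx1 * b - q⁻¹ • (a * hbv)
    simp only [mul_sub, sub_mul, mul_smul_comm, smul_mul_assoc, smul_sub, smul_smul, mul_assoc]
    match_scalars <;> field_simp <;> ring
  have h3 : b * x = q⁻¹ • (u * b * c - b * c * u) := by
    linear_combination (norm := skip) b * hx2 - q⁻¹ • (hub * c)
    simp only [mul_sub, sub_mul, mul_smul_comm, smul_mul_assoc, smul_sub, smul_smul, mul_assoc]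
    match_scalars <;> field_simp <;> ring
  have h4 : x * b = u * c * b - c * b * u := by
    linear_combination (norm := skip) hx2 * b - q⁻¹ • (c * hub)
    simp only [mul_sub, sub_mul, mul_smul_comm, smul_mul_assoc, smul_sub, smul_smul, mul_assoc]
    match_scalars <;> field_simp <;> ring
  have h5 : (q + q⁻¹) • (b * x - x * b) = 0 := by
    linear_combination (norm := skip) q⁻¹ • h1 - q • h2 + q • h3 - q⁻¹ • h4
      + hu * v - v * hu - u * hv + hv * u
    simp only [mul_sub, sub_mul, mul_smul_comm, smul_mul_assoc, smul_sub, smul_smul, mul_assoc]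
    match_scalars <;> field_simp <;> ring
  have h6 : q + q⁻¹ ≠ 0 := by
    intro h0
    apply hq2
    field_simp at h0
    linear_combination h0
  exact sub_eq_zero.1 ((smul_eq_zero.1 h5).resolve_left h6)

theorem rvA_R6 (hq : q ≠ 0) (hq2 : q ^ 2 ≠ -1) (h : SerreRel q E) :
    ∀ a b i, Commute (E (i + a + 1)) (rvA q E (a + b + 2) i)
  | 0, 0, i => rvA_R6_base hq hq2 h i
  | 0, b + 1, i => by
    have ih := rvA_R6 hq hq2 h 0 b i
    have hc : Commute (E (i + 0 + 1)) (E (i + (0 + b + 2) + 1)) := h.far _ _ (by omega)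
    have e := rvA_right h (0 + b + 2) i
    rw [show 0 + (b + 1) + 2 = 0 + b + 2 + 1 by ring, e]
    exact (ih.mul_right hc).sub_right ((hc.mul_right ih).smul_right _)
  | a + 1, b, i => by
    have ih := rvA_R6 hq hq2 h a b (i + 1)
    rw [show i + 1 + a + 1 = i + (a + 1) + 1 by ring] at ih
    have hc : Commute (E (i + (a + 1) + 1)) (E i) := (h.far _ _ (by omega)).symm
    have e : rvA q E (a + 1 + b + 2) i
      = E i * rvA q E (a + b + 2) (i + 1) - q⁻¹ • (rvA q E (a + b + 2) (i + 1) * E i) := by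
      rw [show a + 1 + b + 2 = (a + b + 2) + 1 by ring]; rfl
    rw [e]
    exact (hc.mul_right ih).sub_right ((ih.mul_right hc).smul_right _)

end

theorem sR4 : S_R4 := by
  intro B _ _ q E hq h i j hij
  obtain ⟨d, rfl⟩ := Nat.exists_eq_add_of_le hij
  rw [show i + 2 + d = i + (d + 1) + 1 by ring, rv_eq_rvA]
  exact rvA_R4 hq h d i

theorem sR5 : S_R5 := by
  intro B _ _ q E hq h i j hij
  obtain ⟨d, rfl⟩ := Nat.exists_eq_add_of_lt hij
  have := rvA_R5 hq h d i
  rw [← rv_eq_rvA] at this
  exact this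

theorem sR6 : S_R6 := by
  intro B _ _ q E hq hq2 h i j k hik hkj
  obtain ⟨a, rfl⟩ := Nat.exists_eq_add_of_lt hik
  obtain ⟨b, rfl⟩ := Nat.exists_eq_add_of_lt hkj
  rw [show i + a + 1 + 1 + b + 1 = i + (a + b + 2) + 1 by ring, rv_eq_rvA]
  exact rvA_R6 hq hq2 h a b i

end Pool.Agent.Helper29.SQ
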